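import Pool.Agent.helper36.LT.LatDefs

set_option autoImplicit false

/-!
# Module T3-E: `GL_3(D[t])`
-/

namespace Pool.Agent.helper20.T3

open Pool.Agent.helper36.LT
open scoped MatrixGroups

section toLS

variable {D k : Type} [CommRing D] [Field k] (ι : D →+* k)

lemma toLS_coeff (p : Polynomial D) (m : ℕ) :
    (toLS ι p).coeff (-(m : ℤ)) = ι (p.coeff m) := by
  unfold toLS
  rw [Polynomial.coe_eval₂RingHom, Polynomial.eval₂_eq_sum_range]
  rw [HahnSeries.coeff_sum]
  have h1 : ∀ i : ℕ, ((HahnSeries.C.comp ι) (p.coeff i) *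
      (HahnSeries.single (-1 : ℤ) (1 : k)) ^ i).coeff (-(m : ℤ)) =
      if i = m then ι (p.coeff i) else 0 := by
    intro i
    rw [HahnSeries.single_pow, RingHom.comp_apply, HahnSeries.C_apply,
      HahnSeries.single_mul_single]
    rw [HahnSeries.coeff_single]
    by_cases h : i = m
    · subst h
      simp
    · rw [if_neg h, if_neg]
      intro h'
      apply h
      simp at h'
      omega
  rw [Finset.sum_congr rfl (fun i _ => h1 i), Finset.sum_ite_eq']
  split_ifs with h
  · rfl
  · rw [Finset.mem_range, not_lt] at h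
    rw [Polynomial.coeff_eq_zero_of_natDegree_lt (by omega), map_zero]

lemma natDegree_le_of_order (hι : Function.Injective ι) (p : Polynomial D) (n : ℕ)
    (h : toLS ι p = 0 ∨ -(n : ℤ) ≤ (toLS ι p).order) : p.natDegree ≤ n := by
  by_contra hlt
  push Not at hlt
  have hp : p.coeff p.natDegree ≠ 0 := by
    intro h0
    have : p = 0 := Polynomial.leadingCoeff_eq_zero.1 h0
    rw [this, Polynomial.natDegree_zero] at hlt
    omega
  have h1 : (toLS ι p).coeff (-(p.natDegree : ℤ)) ≠ 0 := by
    rw [toLS_coeff]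
    intro h0
    exact hp (hι (by rw [h0, map_zero]))
  rcases h with h | h
  · rw [h] at h1
    exact h1 (HahnSeries.coeff_zero)
  · have h2 := HahnSeries.order_le_of_coeff_ne_zero h1
    omega

lemma order_unit [IsDomain D] (p : Polynomial D) (hp : IsUnit p) :
    (toLS ι p).order = 0 := by
  obtain ⟨r, hr, rfl⟩ := Polynomial.isUnit_iff.1 hp
  unfold toLS
  rw [Polynomial.coe_eval₂RingHom, Polynomial.eval₂_C, RingHom.comp_apply]
  exact HahnSeries.order_C

end toLS

/-- the group `GL_3(D[t])` acts on the chambers -/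
lemma ex_action {V : Type} [SemilatticeSup V] (L : LatSys V) (G : Type) [Group G]
    [MulAction G V] (h1 : ∀ (g : G) (a b : V), a ≤ b → g • a ≤ g • b)
    (h2 : ∀ (g : G) (a : V), g • L.sh a = L.sh (g • a))
    (h3 : ∀ (g : G) (a : V), L.ind (g • a) = L.ind a) :
    ∃ _ : MulAction G (Cham L), ∀ (g : G) (c : Cham L) (i : ℤ), (g • c).1 i = g • c.1 i := by
  let act : G → Cham L → Cham L := fun g c => ⟨fun i => g • c.1 i, by
    refine ⟨?_, ?_, ?_⟩
    · intro i
      exact (congrArg (fun v => g • v) (c.2.1 i)).trans (h2 _ _)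
    · intro i
      exact h1 _ _ _ (c.2.2.1 i)
    · intro i
      exact (h3 _ _).trans (c.2.2.2 i)⟩
  have a1 : ∀ c : Cham L, act 1 c = c := by
    intro c
    apply Subtype.ext
    funext i
    exact one_smul G (c.1 i)
  have a2 : ∀ (g h : G) (c : Cham L), act (g * h) c = act g (act h c) := by
    intro g h c
    apply Subtype.ext
    funext i
    exact mul_smul g h (c.1 i)
  refine ⟨{ smul := act, one_smul := a1, mul_smul := a2 }, ?_⟩
  · intro g c i
    rfl

lemma exists_outside (T : Set (ZMod 3)) (hT : IsTy T) : ∃ i : ℤ, (i : ZMod 3) ∉ T := by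
  have key : ∀ s t : ZMod 3, ∃ j : ZMod 3, j ≠ s ∧ j ≠ t := by decide
  have main : ∃ j : ZMod 3, j ∉ T := by
    rcases hT with rfl | ⟨s, rfl⟩ | ⟨s, t, -, rfl⟩
    · exact ⟨0, Set.notMem_empty _⟩
    · obtain ⟨j, hj, -⟩ := key s s
      exact ⟨j, hj⟩
    · obtain ⟨j, hj, hj'⟩ := key s t
      refine ⟨j, ?_⟩
      rintro (h | h)
      · exact hj h
      · exact hj' h
  obtain ⟨j, hj⟩ := main
  refine ⟨(j.val : ℤ), ?_⟩
  have : (((j.val : ℕ) : ℤ) : ZMod 3) = j := by
    rw [Int.cast_natCast, ZMod.natCast_zmod_val]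
  rw [this]
  exact hj

/-- **T3-E**, from the other modules -/
theorem gl3_poly_of {P : ∀ (G : Type) [Group G], Prop}
    (hA : ∀ (V : Type) [SemilatticeSup V] (L : LatSys V),
      ∃ X : Sys (ZMod 3) (Cham L), X.r = chamRel L)
    (hB : ∀ (V : Type) [SemilatticeSup V] (L : LatSys V) (X : Sys (ZMod 3) (Cham L)),
      X.r = chamRel L → X.SC)
    (hC : ∀ (k : Type) [Field k], ∃ (V : Type) (_ : SemilatticeSup V) (D : LatSys V)
      (_ : MulAction (GL (Fin 3) (LaurentSeries k)) V),
      (∀ (g : GL (Fin 3) (LaurentSeries k)) (a b : V), a ≤ b → g • a ≤ g • b) ∧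
      (∀ (g : GL (Fin 3) (LaurentSeries k)) (a : V), g • D.sh a = D.sh (g • a)) ∧
      (∀ (g : GL (Fin 3) (LaurentSeries k)) (a : V), D.ind (g • a) =
        D.ind a + (g : Matrix (Fin 3) (Fin 3) (LaurentSeries k)).det.order) ∧
      ∀ a : V, ∃ n : ℕ, ∀ g : GL (Fin 3) (LaurentSeries k), g • a = a →
        ∀ i j, (g : Matrix (Fin 3) (Fin 3) (LaurentSeries k)) i j = 0 ∨
          -(n : ℤ) ≤ ((g : Matrix (Fin 3) (Fin 3) (LaurentSeries k)) i j).order)
    (hD : ∀ (G B : Type) [Group G] [MulAction G B] (X : Sys (ZMod 3) B),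
      X.SC → X.Inv G →
      (∀ (T : Set (ZMod 3)) (b : B), IsTy T → ∃ (Q : Type) (_ : Group Q) (f : G →* Q), P Q ∧
        ∀ g ∈ X.stab G T b, f g = 1 → g = 1) → P G)
    (D : Type) [CommRing D] [IsDomain D]
    (h : ∀ n : ℕ, ∃ (R : Type) (_ : CommRing R) (φ : Polynomial D →+* R), P (GL (Fin 3) R) ∧
      ∀ p : Polynomial D, p.natDegree ≤ n → φ p = 0 → p = 0) :
    P (GL (Fin 3) (Polynomial D)) := by
  let k := FractionRing D
  let ι : D →+* k := algebraMap D k
  have hι : Function.Injective ι := IsFractionRing.injective D k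
  obtain ⟨V, iV, L, act, c1, c2, c3, c4⟩ := hC k
  let F : GL (Fin 3) (Polynomial D) →* GL (Fin 3) (LaurentSeries k) :=
    Matrix.GeneralLinearGroup.map (toLS ι)
  have hF : ∀ (g : GL (Fin 3) (Polynomial D)) i j,
      (F g : Matrix (Fin 3) (Fin 3) (LaurentSeries k)) i j =
        toLS ι ((g : Matrix (Fin 3) (Fin 3) (Polynomial D)) i j) := fun g i j => rfl
  let _ : MulAction (GL (Fin 3) (Polynomial D)) V := MulAction.compHom V F
  have hact : ∀ (g : GL (Fin 3) (Polynomial D)) (a : V), g • a = F g • a := fun g a => rfl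
  have hdet : ∀ g : GL (Fin 3) (Polynomial D),
      (F g : Matrix (Fin 3) (Fin 3) (LaurentSeries k)).det.order = 0 := by
    intro g
    have e : (F g : Matrix (Fin 3) (Fin 3) (LaurentSeries k)).det =
        toLS ι ((g : Matrix (Fin 3) (Fin 3) (Polynomial D)).det) := by
      have := (RingHom.map_det (toLS ι) (g : Matrix (Fin 3) (Fin 3) (Polynomial D))).symm
      exact this
    rw [e]
    exact order_unit ι _ ((Matrix.isUnit_iff_isUnit_det _).1 g.isUnit)
  obtain ⟨actC, hactC⟩ := ex_action L (GL (Fin 3) (Polynomial D))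
    (fun g a b hab => c1 (F g) a b hab) (fun g a => c2 (F g) a)
    (fun g a => by rw [hact, c3, hdet, add_zero])
  obtain ⟨X, hX⟩ := hA V L
  refine hD (GL (Fin 3) (Polynomial D)) (Cham L) X (hB V L X hX) ?_ ?_
  · intro g T b c hbc
    rw [hX] at hbc ⊢
    intro i hi
    rw [hactC, hactC, hbc i hi]
  · intro T c hT
    obtain ⟨i, hi⟩ := exists_outside T hT
    obtain ⟨n, hn⟩ := c4 (c.1 i)
    obtain ⟨R, iR, φ, hPR, hφ⟩ := h n
    refine ⟨GL (Fin 3) R, inferInstance, Matrix.GeneralLinearGroup.map φ, hPR, ?_⟩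
    intro g hg hg1
    have hg' : X.r T c (g • c) := hg
    rw [hX] at hg'
    have h1 : F g • c.1 i = c.1 i := by
      rw [← hact, ← hactC]
      exact (hg' i hi).symm
    have h2 := hn (F g) h1
    ext a b
    have h3 : ((g : Matrix (Fin 3) (Fin 3) (Polynomial D)) a b).natDegree ≤ n := by
      refine natDegree_le_of_order ι hι _ n ?_
      rw [← hF]
      exact h2 a b
    have h4 : φ ((g : Matrix (Fin 3) (Fin 3) (Polynomial D)) a b) =
        (1 : Matrix (Fin 3) (Fin 3) R) a b := by
      have h5 : (Matrix.GeneralLinearGroup.map φ g : GL (Fin 3) R) = 1 := hg1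
      have h6 := congrArg (fun u : GL (Fin 3) R => (u : Matrix (Fin 3) (Fin 3) R) a b) h5
      exact h6
    have h5 : (g : Matrix (Fin 3) (Fin 3) (Polynomial D)) a b -
        (1 : Matrix (Fin 3) (Fin 3) (Polynomial D)) a b = 0 := by
      apply hφ
      · refine (Polynomial.natDegree_sub_le _ _).trans (max_le h3 ?_)
        by_cases hab : a = b
        · subst hab
          rw [Matrix.one_apply_eq, Polynomial.natDegree_one]
          omega
        · rw [Matrix.one_apply_ne hab, Polynomial.natDegree_zero]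
          omega
      · rw [map_sub, h4]
        by_cases hab : a = b
        · subst hab
          rw [Matrix.one_apply_eq, Matrix.one_apply_eq, map_one, sub_self]
        · rw [Matrix.one_apply_ne hab, Matrix.one_apply_ne hab, map_zero, sub_self]
    rw [sub_eq_zero] at h5
    rw [h5]
    rfl

end Pool.Agent.helper20.T3
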